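import Pool.Agent.H628R3.RO.N1
import Pool.Agent.J6H54.RO.Key
import Pool.Agent.H628R3.RO.A2
import Pool.Agent.TH678.GC.Defs

/-!
# Measures of the oracles for which a machine accepts
-/

set_option autoImplicit false

namespace Pool.Agent.J6H17.LM

open MeasureTheory Pool.Agent.NPC Pool.Agent.H628R3.RO
open Pool.Agent.H622R2 (poly_of_polyTime polyTime_of_poly_list)
open Pool.Agent.TH678.GC (join)

/-- An oracle-dependent language `B`: for every oracle `Z` a language `B Z`. -/
abbrev Fam : Type := Oracle → Set (List Bool)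

/-- Relativized `P`: one polynomial-time oracle machine decides `B Z` for all `Z`. -/
def IsRelP (B : Fam) : Prop :=
  ∃ M : Alg, ∀ (Z : Oracle) (x : List Bool), x ∈ B Z ↔ M.out Z x = some [true]

/-- Relativized `NP`. -/
def IsRelNP (B : Fam) : Prop :=
  ∃ (M : Alg) (p : Polynomial ℕ), ∀ (Z : Oracle) (x : List Bool),
    x ∈ B Z ↔ ∃ w : List Bool, w.length ≤ p.eval x.length ∧ M.out Z (pairBits x w) = some [true]

/-- Relativized `coNP`. -/
def IsRelCoNP (B : Fam) : Prop := IsRelNP fun Z => (B Z)ᶜ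

/-- The measure of the set of all `Z` with `x ∈ B (Z ⊕ Y)`. -/
noncomputable def meas (Y : Oracle) (B : Fam) (x : List Bool) : ℝ :=
  prob {Z : Oracle | x ∈ B (join Z Y)}

/-- The language `Lm (B)` relative to `Y`: all `(x, k, n)` with `k ≥ 1` such that the measure of the
set of all `Z` with `x ∈ B (Z ⊕ Y)` is greater than `n / k`. -/
def Lm (Y : Oracle) (B : Fam) : Set (List Bool × ℕ × ℕ) :=
  {t | 1 ≤ t.2.1 ∧ (t.2.2 : ℝ) / t.2.1 < meas Y B t.1}

theorem meas_nonneg (Y : Oracle) (B : Fam) (x : List Bool) : 0 ≤ meas Y B x :=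
  measureReal_nonneg

theorem le_of_Lm {Y : Oracle} {B B' : Fam} (h : Lm Y B = Lm Y B') (x : List Bool) :
    meas Y B x ≤ meas Y B' x := by
  by_contra hlt
  rw [not_le] at hlt
  obtain ⟨q, hq1, hq2⟩ := exists_rat_btwn hlt
  have hq0 : 0 ≤ q := by
    have h1 : (0 : ℝ) < q := (meas_nonneg Y B' x).trans_lt hq1
    exact_mod_cast h1.le
  have hq : (q : ℝ) = (q.num.toNat : ℝ) / (q.den : ℝ) := by
    have h1 : (q.num.toNat : ℤ) = q.num := Int.toNat_of_nonneg (Rat.num_nonneg.2 hq0)
    have h2 : ((q.num.toNat : ℤ) : ℝ) = (q.num : ℝ) := by rw [h1]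
    rw [Rat.cast_def, ← h2, Int.cast_natCast]
  have h1 : (x, q.den, q.num.toNat) ∈ Lm Y B := ⟨q.den_pos, by
    show (q.num.toNat : ℝ) / (q.den : ℝ) < meas Y B x
    rw [← hq]
    exact hq2⟩
  rw [h] at h1
  have h2 : (q.num.toNat : ℝ) / (q.den : ℝ) < meas Y B' x := h1.2
  rw [← hq] at h2
  linarith

theorem meas_eq_of_Lm {Y : Oracle} {B B' : Fam} (h : Lm Y B = Lm Y B') (x : List Bool) :
    meas Y B x = meas Y B' x := le_antisymm (le_of_Lm h x) (le_of_Lm h.symm x)

theorem join_congr {Z Z' Y : Oracle} {q : List Bool} (h : Z q.tail = Z' q.tail) :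
    join Z Y q = join Z' Y q := by
  rcases q with _ | ⟨b, q⟩
  · rfl
  · cases b
    · exact h
    · rfl

/-- the run depends on few bits of the oracle -/
theorem exists_bits (M : Alg) (Z₀ Y : Oracle) (x : List Bool) : ∀ (n : ℕ) (a : List Bool),
    ∃ K : Finset (List Bool), K.card ≤ n ∧ ∀ Z : Oracle, (∀ u ∈ K, Z u = Z₀ u) →
      M.run (join Z Y) x n a = M.run (join Z₀ Y) x n a := by
  classical
  intro n
  induction n with
  | zero => exact fun a => ⟨∅, le_rfl, fun Z _ => rfl⟩
  | succ n ih =>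
    intro a
    obtain ⟨K, hK, h⟩ := ih (a ++ [join Z₀ Y (M.D (pairBits x a)).tail])
    refine ⟨insert (M.D (pairBits x a)).tail.tail K, (Finset.card_insert_le _ _).trans (by omega),
      fun Z hZ => ?_⟩
    have h1 : join Z Y (M.D (pairBits x a)).tail = join Z₀ Y (M.D (pairBits x a)).tail :=
      join_congr (hZ _ (Finset.mem_insert_self _ _))
    rw [A2.run_succ, A2.run_succ, h1]
    split_ifs
    · exact h Z fun u hu => hZ u (Finset.mem_insert_of_mem hu)
    · rfl

theorem prob_mono {S T : Set Oracle} (h : S ⊆ T) : prob S ≤ prob T :=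
  measureReal_mono h

/-- a possible output has probability at least `2 ^ (-p)` -/
theorem prob_out (M : Alg) (Z₀ Y : Oracle) (x : List Bool) {S : Set Oracle}
    (hS : ∀ Z : Oracle, M.out (join Z Y) x = M.out (join Z₀ Y) x → Z ∈ S) :
    (1 / 2 : ℝ) ^ (M.p.eval x.length) ≤ prob S := by
  obtain ⟨K, hK, h⟩ := exists_bits M Z₀ Y x (M.p.eval x.length) []
  have h1 := prob_agree K.toList K.nodup_toList Z₀
  rw [Finset.length_toList] at h1
  refine (pow_le_pow_of_le_one (by norm_num) (by norm_num) hK).trans (h1.symm.le.trans ?_)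
  refine prob_mono fun Z hZ => hS Z ?_
  exact h Z fun u hu => hZ u (Finset.mem_toList.2 hu)

/-- the measures for `NP` are `0` or not very small -/
theorem gap_NP {B : Fam} (hB : IsRelNP B) (Y : Oracle) : ∃ q : Polynomial ℕ, ∀ x : List Bool,
    meas Y B x = 0 ∨ (1 / 2 : ℝ) ^ (q.eval x.length) ≤ meas Y B x := by
  obtain ⟨M, p, h⟩ := hB
  refine ⟨M.p.comp (2 * Polynomial.X + p + 1), fun x => ?_⟩
  by_cases hne : ∃ Z₀ : Oracle, x ∈ B (join Z₀ Y)
  · right
    obtain ⟨Z₀, hZ₀⟩ := hne
    obtain ⟨w, hw, hout⟩ := (h _ _).1 hZ₀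
    refine le_trans ?_ (prob_out M Z₀ Y (pairBits x w) (fun Z hZ => ?_))
    · refine pow_le_pow_of_le_one (by norm_num) (by norm_num) ?_
      rw [Polynomial.eval_comp]
      apply eval_mono
      rw [A2.length_pairBits]
      simp only [Polynomial.eval_add, Polynomial.eval_mul, Polynomial.eval_X,
        Polynomial.eval_one, Polynomial.eval_ofNat]
      omega
    · exact (h _ _).2 ⟨w, hw, hZ.trans hout⟩
  · left
    have h1 : {Z : Oracle | x ∈ B (join Z Y)} = ∅ := by
      ext Z
      simp only [Set.mem_ofPred_eq, Set.mem_empty_iff_false, iff_false]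
      exact fun h => hne ⟨Z, h⟩
    unfold meas
    rw [h1]
    simp [prob]

/-- the measures for `P` are `0` or not very small -/
theorem gap_P {B : Fam} (hB : IsRelP B) (Y : Oracle) : ∃ q : Polynomial ℕ, ∀ x : List Bool,
    (meas Y B x = 0 ∨ (1 / 2 : ℝ) ^ (q.eval x.length) ≤ meas Y B x) ∧
    (meas Y (fun Z => (B Z)ᶜ) x = 0 ∨
      (1 / 2 : ℝ) ^ (q.eval x.length) ≤ meas Y (fun Z => (B Z)ᶜ) x) := by
  obtain ⟨M, h⟩ := hB
  refine ⟨M.p, fun x => ⟨?_, ?_⟩⟩
  · by_cases hne : ∃ Z₀ : Oracle, x ∈ B (join Z₀ Y)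
    · right
      obtain ⟨Z₀, hZ₀⟩ := hne
      exact prob_out M Z₀ Y x fun Z hZ => (h _ _).2 (hZ.trans ((h _ _).1 hZ₀))
    · left
      have h1 : {Z : Oracle | x ∈ B (join Z Y)} = ∅ := by
        ext Z
        simp only [Set.mem_ofPred_eq, Set.mem_empty_iff_false, iff_false]
        exact fun h => hne ⟨Z, h⟩
      unfold meas
      rw [h1]
      simp [prob]
  · by_cases hne : ∃ Z₀ : Oracle, x ∉ B (join Z₀ Y)
    · right
      obtain ⟨Z₀, hZ₀⟩ := hne
      refine prob_out M Z₀ Y x fun Z hZ => ?_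
      show x ∈ (B (join Z Y))ᶜ
      intro hx
      exact hZ₀ ((h _ _).2 (hZ.symm.trans ((h _ _).1 hx)))
    · left
      have h1 : {Z : Oracle | x ∈ (fun Z => (B Z)ᶜ) (join Z Y)} = ∅ := by
        ext Z
        simp only [Set.mem_ofPred_eq, Set.mem_empty_iff_false, iff_false]
        exact fun h => hne ⟨Z, h⟩
      unfold meas
      rw [h1]
      simp [prob]

/-- the family: some string of length at most `|x|` is in the first half of the oracle -/
def B₀ : Fam := fun Z => {x | ∃ w : List Bool, w.length ≤ x.length ∧ Z (false :: w) = true}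

/-- the verifier -/
def D₀ (y : List Bool) : List Bool :=
  if (unpair y).2 = [] then false :: false :: (unpair (unpair y).1).2 else true :: (unpair y).2

theorem poly_D₀ : Poly D₀ :=
  Poly.ite (Poly.decide_eq (Poly.snd poly_unpair) (NPC.Poly.const ([] : List Bool)))
    (Poly.cons (NPC.Poly.const false) (Poly.cons (NPC.Poly.const false)
      (Poly.snd (poly_unpair.comp (Poly.fst poly_unpair)))))
    (Poly.cons (NPC.Poly.const true) (Poly.snd poly_unpair))

noncomputable def M₀ : Alg := ⟨D₀, polyTime_of_poly_list poly_D₀, 2⟩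

theorem out_M₀ (Z : Oracle) (x w : List Bool) :
    M₀.out Z (pairBits x w) = some [Z (false :: w)] := by
  have hp : M₀.p.eval (pairBits x w).length = 2 := by simp [M₀]
  unfold Alg.out
  rw [hp, A2.run_succ]
  have h1 : M₀.D (pairBits (pairBits x w) []) = false :: false :: w := by
    show D₀ _ = _
    unfold D₀
    simp [unpair_pairBits]
  rw [h1, if_pos (show (false :: false :: w).head? = some false from rfl), A2.run_succ]
  have h2 : M₀.D (pairBits (pairBits x w) ([] ++ [Z (false :: false :: w).tail])) =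
      true :: [Z (false :: w)] := by
    show D₀ _ = _
    unfold D₀
    simp [unpair_pairBits]
  rw [h2, if_neg (by simp)]
  rfl

theorem isRelNP_B₀ : IsRelNP B₀ := by
  refine ⟨M₀, Polynomial.X, fun Z x => ?_⟩
  simp only [out_M₀, Polynomial.eval_X, Option.some.injEq, List.cons.injEq, and_true]
  rfl

theorem meas_B₀_compl (Y : Oracle) (x : List Bool) :
    meas Y (fun Z => (B₀ Z)ᶜ) x = (1 / 2 : ℝ) ^ (strs x.length).length := by
  rw [← prob_agree (strs x.length) (nodup_strs _) (fun _ => false)]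
  unfold meas
  congr 1
  ext Z
  show (¬ ∃ w : List Bool, w.length ≤ x.length ∧ Z w = true) ↔ ∀ u ∈ strs x.length, Z u = false
  constructor
  · intro h u hu
    by_contra hne
    exact h ⟨u, mem_strs.1 hu, by simpa using hne⟩
  · rintro h ⟨w, hw, hw'⟩
    have := h w (mem_strs.2 hw)
    rw [hw'] at this
    simp at this

theorem le_length_strs (n : ℕ) : 2 ^ n ≤ (strs n).length := by
  rw [← length_strsEq n]
  exact (List.subperm_of_subset (nodup_strsEq n) fun x hx =>
    mem_strs.2 (mem_strsEq.1 hx).le).length_le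

/-- no gap -/
theorem no_gap (q : Polynomial ℕ) (Y : Oracle) : ∃ x : List Bool,
    0 < meas Y (fun Z => (B₀ Z)ᶜ) x ∧
      meas Y (fun Z => (B₀ Z)ᶜ) x < (1 / 2 : ℝ) ^ (q.eval x.length) := by
  obtain ⟨N, hN⟩ := Pool.Agent.J6H54.RO.poly_le_two_pow (q + 1)
  refine ⟨List.replicate N true, ?_⟩
  rw [meas_B₀_compl]
  have h1 := hN N le_rfl
  have h2 := le_length_strs N
  rw [List.length_replicate]
  refine ⟨by positivity, pow_lt_pow_right_of_lt_one₀ (by norm_num) (by norm_num) ?_⟩
  simp only [Polynomial.eval_add, Polynomial.eval_one] at h1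
  omega

end Pool.Agent.J6H17.LM
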