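import Pool.Agent.J6H17.LM.Main

/-!
# The three classes differ
-/

set_option autoImplicit false

namespace Pool.Agent.J6H17.LM

open MeasureTheory Pool.Agent.NPC Pool.Agent.H628R3.RO
open Pool.Agent.TH678.GC (join)

theorem randomOracle_univ : (randomOracle : Measure Oracle).real Set.univ = 1 := by
  have h := prob_agree [] List.nodup_nil (fun _ => false)
  have h1 : {A : Oracle | ∀ x ∈ ([] : List (List Bool)), A x = (fun _ => false) x} = Set.univ := by
    ext A
    simp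
  rw [h1] at h
  simpa only [prob, List.length_nil, pow_zero] using h

theorem prob_compl_agree (K : List (List Bool)) (hK : K.Nodup) (B : Oracle) :
    prob {A | ∀ x ∈ K, A x = B x}ᶜ = 1 - (1 / 2) ^ K.length := by
  have h := measureReal_compl (μ := randomOracle) (measurable_agree K B)
  rw [prob, h, randomOracle_univ, ← prob_agree K hK B]
  rfl

/-- the measures for `P` are `1` or not very close to `1` -/
theorem gap_P' {B : Fam} (hB : IsRelP B) (Y : Oracle) : ∃ q : Polynomial ℕ, ∀ x : List Bool,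
    meas Y B x = 1 ∨ meas Y B x ≤ 1 - (1 / 2 : ℝ) ^ (q.eval x.length) := by
  obtain ⟨M, h⟩ := hB
  refine ⟨M.p, fun x => ?_⟩
  by_cases hne : ∃ Z₀ : Oracle, x ∉ B (join Z₀ Y)
  · right
    obtain ⟨Z₀, hZ₀⟩ := hne
    obtain ⟨K, hK, hK'⟩ := exists_bits M Z₀ Y x (M.p.eval x.length) []
    have h1 : {Z : Oracle | x ∈ B (join Z Y)} ⊆ {Z | ∀ u ∈ K.toList, Z u = Z₀ u}ᶜ := by
      intro Z hZ hZ'
      refine hZ₀ ((h _ _).2 ?_)
      have h2 : M.out (join Z Y) x = M.out (join Z₀ Y) x :=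
        hK' Z fun u hu => hZ' u (Finset.mem_toList.2 hu)
      rw [← h2]
      exact (h _ _).1 hZ
    have h2 := prob_mono h1
    rw [prob_compl_agree K.toList K.nodup_toList, Finset.length_toList] at h2
    have h3 : (1 / 2 : ℝ) ^ (M.p.eval x.length) ≤ (1 / 2 : ℝ) ^ K.card :=
      pow_le_pow_of_le_one (by norm_num) (by norm_num) hK
    show prob {Z : Oracle | x ∈ B (join Z Y)} ≤ _
    linarith
  · left
    have h1 : {Z : Oracle | x ∈ B (join Z Y)} = Set.univ := by
      ext Z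
      simp only [Set.mem_ofPred_eq, Set.mem_univ, iff_true]
      by_contra h2
      exact hne ⟨Z, h2⟩
    unfold meas
    rw [h1]
    exact randomOracle_univ

theorem meas_B₀ (Y : Oracle) (x : List Bool) :
    meas Y B₀ x = 1 - (1 / 2 : ℝ) ^ (strs x.length).length := by
  rw [← prob_compl_agree (strs x.length) (nodup_strs _) (fun _ => false)]
  unfold meas
  congr 1
  ext Z
  show (∃ w : List Bool, w.length ≤ x.length ∧ Z w = true) ↔ ¬ ∀ u ∈ strs x.length, Z u = false
  constructor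
  · rintro ⟨w, hw, hw'⟩ h
    have := h w (mem_strs.2 hw)
    rw [hw'] at this
    simp at this
  · intro h
    by_contra h1
    refine h fun u hu => ?_
    by_contra hne
    exact h1 ⟨u, mem_strs.1 hu, by simpa using hne⟩

theorem meas_B₀_eq (Y : Oracle) (x : List Bool) :
    meas Y B₀ x = 1 - meas Y (fun Z => (B₀ Z)ᶜ) x := by
  rw [meas_B₀, meas_B₀_compl]

/-- not in `LP` -/
theorem sep_P {B : Fam} (hB : IsRelP B) (Y : Oracle) : Lm Y B₀ ≠ Lm Y B := by
  intro h
  obtain ⟨q, hq⟩ := gap_P' hB Y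
  obtain ⟨x, h1, h2⟩ := no_gap q Y
  have h3 := meas_eq_of_Lm h x
  rw [meas_B₀_eq] at h3
  rcases hq x with h4 | h4 <;> linarith

/-- not in `LNP` -/
theorem sep_NP {B : Fam} (hB : IsRelNP B) (Y : Oracle) : Lm Y (fun Z => (B₀ Z)ᶜ) ≠ Lm Y B := by
  intro h
  obtain ⟨q, hq⟩ := gap_NP hB Y
  obtain ⟨x, h1, h2⟩ := no_gap q Y
  have h3 := meas_eq_of_Lm h x
  rcases hq x with h4 | h4 <;> linarith

/-- not in `LP` -/
theorem sep_P' {B : Fam} (hB : IsRelP B) (Y : Oracle) : Lm Y (fun Z => (B₀ Z)ᶜ) ≠ Lm Y B := by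
  intro h
  obtain ⟨q, hq⟩ := gap_P hB Y
  obtain ⟨x, h1, h2⟩ := no_gap q Y
  have h3 := meas_eq_of_Lm h x
  rcases (hq x).1 with h4 | h4 <;> linarith

/-- the measures for `coNP` are `1` or not very close to `1` -/
theorem gap_coNP {B : Fam} (hB : IsRelCoNP B) (Y : Oracle) : ∃ q : Polynomial ℕ,
    ∀ x : List Bool, meas Y B x = 1 ∨ meas Y B x ≤ 1 - (1 / 2 : ℝ) ^ (q.eval x.length) := by
  obtain ⟨M, p, h⟩ := hB
  refine ⟨M.p.comp (2 * Polynomial.X + p + 1), fun x => ?_⟩
  by_cases hne : ∃ Z₀ : Oracle, x ∈ (B (join Z₀ Y))ᶜ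
  · right
    obtain ⟨Z₀, hZ₀⟩ := hne
    obtain ⟨w, hw, hout⟩ := (h _ _).1 hZ₀
    obtain ⟨K, hK, hK'⟩ := exists_bits M Z₀ Y (pairBits x w) (M.p.eval (pairBits x w).length) []
    have h1 : {Z : Oracle | x ∈ B (join Z Y)} ⊆ {Z | ∀ u ∈ K.toList, Z u = Z₀ u}ᶜ := by
      intro Z hZ hZ'
      have h2 : M.out (join Z Y) (pairBits x w) = M.out (join Z₀ Y) (pairBits x w) :=
        hK' Z fun u hu => hZ' u (Finset.mem_toList.2 hu)
      have h3 : x ∈ (B (join Z Y))ᶜ := (h _ _).2 ⟨w, hw, h2.trans hout⟩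
      exact h3 hZ
    have h2 := prob_mono h1
    rw [prob_compl_agree K.toList K.nodup_toList, Finset.length_toList] at h2
    have h4 : K.card ≤ (M.p.comp (2 * Polynomial.X + p + 1)).eval x.length := by
      refine hK.trans ?_
      rw [Polynomial.eval_comp]
      apply eval_mono
      rw [A2.length_pairBits]
      simp only [Polynomial.eval_add, Polynomial.eval_mul, Polynomial.eval_X,
        Polynomial.eval_one, Polynomial.eval_ofNat]
      omega
    have h3 : (1 / 2 : ℝ) ^ ((M.p.comp (2 * Polynomial.X + p + 1)).eval x.length) ≤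
        (1 / 2 : ℝ) ^ K.card :=
      pow_le_pow_of_le_one (by norm_num) (by norm_num) h4
    show prob {Z : Oracle | x ∈ B (join Z Y)} ≤ _
    linarith
  · left
    have h1 : {Z : Oracle | x ∈ B (join Z Y)} = Set.univ := by
      ext Z
      simp only [Set.mem_ofPred_eq, Set.mem_univ, iff_true]
      by_contra h2
      exact hne ⟨Z, h2⟩
    unfold meas
    rw [h1]
    exact randomOracle_univ

/-- not in `LΠ₁` -/
theorem sep_coNP {B : Fam} (hB : IsRelCoNP B) (Y : Oracle) : Lm Y B₀ ≠ Lm Y B := by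
  intro h
  obtain ⟨q, hq⟩ := gap_coNP hB Y
  obtain ⟨x, h1, h2⟩ := no_gap q Y
  have h3 := meas_eq_of_Lm h x
  rw [meas_B₀_eq] at h3
  rcases hq x with h4 | h4 <;> linarith

theorem isRelCoNP_compl : IsRelCoNP fun Z => (B₀ Z)ᶜ := by
  unfold IsRelCoNP
  simp only [compl_compl]
  exact isRelNP_B₀

end Pool.Agent.J6H17.LM
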