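import Pool.Agent.H628R3.RO.N1
import Pool.Agent.J6H54.RO.Key
import Pool.Agent.H628R3.RO.A2
import Pool.Agent.J6H17.LM.Sep

/-!
# Measures of the oracles for which a machine accepts
-/

set_option autoImplicit false

namespace Pool.Agent.J6H17.LM0

open MeasureTheory Pool.Agent.NPC Pool.Agent.H628R3.RO
open Pool.Agent.H622R2 (poly_of_polyTime polyTime_of_poly_list)

open Pool.Agent.J6H17.LM (Fam IsRelP IsRelNP IsRelCoNP)

/-- The measure of the set of all `Z` with `x ∈ B Z`. -/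
noncomputable def meas (B : Fam) (x : List Bool) : ℝ :=
  prob {Z : Oracle | x ∈ B Z}

/-- The language `Lm (B)` : all `(x, k, n)` with `k ≥ 1` such that the measure of the
set of all `Z` with `x ∈ B Z` is greater than `n / k`. -/
def Lm (B : Fam) : Set (List Bool × ℕ × ℕ) :=
  {t | 1 ≤ t.2.1 ∧ (t.2.2 : ℝ) / t.2.1 < meas B t.1}

theorem meas_nonneg (B : Fam) (x : List Bool) : 0 ≤ meas B x :=
  measureReal_nonneg

theorem le_of_Lm {B B' : Fam} (h : Lm B = Lm B') (x : List Bool) :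
    meas B x ≤ meas B' x := by
  by_contra hlt
  rw [not_le] at hlt
  obtain ⟨q, hq1, hq2⟩ := exists_rat_btwn hlt
  have hq0 : 0 ≤ q := by
    have h1 : (0 : ℝ) < q := (meas_nonneg B' x).trans_lt hq1
    exact_mod_cast h1.le
  have hq : (q : ℝ) = (q.num.toNat : ℝ) / (q.den : ℝ) := by
    have h1 : (q.num.toNat : ℤ) = q.num := Int.toNat_of_nonneg (Rat.num_nonneg.2 hq0)
    have h2 : ((q.num.toNat : ℤ) : ℝ) = (q.num : ℝ) := by rw [h1]
    rw [Rat.cast_def, ← h2, Int.cast_natCast]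
  have h1 : (x, q.den, q.num.toNat) ∈ Lm B := ⟨q.den_pos, by
    show (q.num.toNat : ℝ) / (q.den : ℝ) < meas B x
    rw [← hq]
    exact hq2⟩
  rw [h] at h1
  have h2 : (q.num.toNat : ℝ) / (q.den : ℝ) < meas B' x := h1.2
  rw [← hq] at h2
  linarith

theorem meas_eq_of_Lm {B B' : Fam} (h : Lm B = Lm B') (x : List Bool) :
    meas B x = meas B' x := le_antisymm (le_of_Lm h x) (le_of_Lm h.symm x)

/-- the run depends on few bits of the oracle -/
theorem exists_bits (M : Alg) (Z₀ : Oracle) (x : List Bool) : ∀ (n : ℕ) (a : List Bool),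
    ∃ K : Finset (List Bool), K.card ≤ n ∧ ∀ Z : Oracle, (∀ u ∈ K, Z u = Z₀ u) →
      M.run Z x n a = M.run Z₀ x n a := by
  classical
  intro n
  induction n with
  | zero => exact fun a => ⟨∅, le_rfl, fun Z _ => rfl⟩
  | succ n ih =>
    intro a
    obtain ⟨K, hK, h⟩ := ih (a ++ [Z₀ (M.D (pairBits x a)).tail])
    refine ⟨insert (M.D (pairBits x a)).tail K, (Finset.card_insert_le _ _).trans (by omega),
      fun Z hZ => ?_⟩
    have h1 : Z (M.D (pairBits x a)).tail = Z₀ (M.D (pairBits x a)).tail :=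
      hZ _ (Finset.mem_insert_self _ _)
    rw [A2.run_succ, A2.run_succ, h1]
    split_ifs
    · exact h Z fun u hu => hZ u (Finset.mem_insert_of_mem hu)
    · rfl

theorem prob_mono {S T : Set Oracle} (h : S ⊆ T) : prob S ≤ prob T :=
  measureReal_mono h

/-- a possible output has probability at least `2 ^ (-p)` -/
theorem prob_out (M : Alg) (Z₀ : Oracle) (x : List Bool) {S : Set Oracle}
    (hS : ∀ Z : Oracle, M.out Z x = M.out Z₀ x → Z ∈ S) :
    (1 / 2 : ℝ) ^ (M.p.eval x.length) ≤ prob S := by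
  obtain ⟨K, hK, h⟩ := exists_bits M Z₀ x (M.p.eval x.length) []
  have h1 := prob_agree K.toList K.nodup_toList Z₀
  rw [Finset.length_toList] at h1
  refine (pow_le_pow_of_le_one (by norm_num) (by norm_num) hK).trans (h1.symm.le.trans ?_)
  refine prob_mono fun Z hZ => hS Z ?_
  exact h Z fun u hu => hZ u (Finset.mem_toList.2 hu)

/-- the measures for `NP` are `0` or not very small -/
theorem gap_NP {B : Fam} (hB : IsRelNP B) : ∃ q : Polynomial ℕ, ∀ x : List Bool,
    meas B x = 0 ∨ (1 / 2 : ℝ) ^ (q.eval x.length) ≤ meas B x := by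
  obtain ⟨M, p, h⟩ := hB
  refine ⟨M.p.comp (2 * Polynomial.X + p + 1), fun x => ?_⟩
  by_cases hne : ∃ Z₀ : Oracle, x ∈ B Z₀
  · right
    obtain ⟨Z₀, hZ₀⟩ := hne
    obtain ⟨w, hw, hout⟩ := (h _ _).1 hZ₀
    refine le_trans ?_ (prob_out M Z₀ (pairBits x w) (fun Z hZ => ?_))
    · refine pow_le_pow_of_le_one (by norm_num) (by norm_num) ?_
      rw [Polynomial.eval_comp]
      apply eval_mono
      rw [A2.length_pairBits]
      simp only [Polynomial.eval_add, Polynomial.eval_mul, Polynomial.eval_X,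
        Polynomial.eval_one, Polynomial.eval_ofNat]
      omega
    · exact (h _ _).2 ⟨w, hw, hZ.trans hout⟩
  · left
    have h1 : {Z : Oracle | x ∈ B Z} = ∅ := by
      ext Z
      simp only [Set.mem_ofPred_eq, Set.mem_empty_iff_false, iff_false]
      exact fun h => hne ⟨Z, h⟩
    unfold meas
    rw [h1]
    simp [prob]

/-- the measures for `P` are `0` or not very small -/
theorem gap_P {B : Fam} (hB : IsRelP B) : ∃ q : Polynomial ℕ, ∀ x : List Bool,
    (meas B x = 0 ∨ (1 / 2 : ℝ) ^ (q.eval x.length) ≤ meas B x) ∧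
    (meas (fun Z => (B Z)ᶜ) x = 0 ∨
      (1 / 2 : ℝ) ^ (q.eval x.length) ≤ meas (fun Z => (B Z)ᶜ) x) := by
  obtain ⟨M, h⟩ := hB
  refine ⟨M.p, fun x => ⟨?_, ?_⟩⟩
  · by_cases hne : ∃ Z₀ : Oracle, x ∈ B Z₀
    · right
      obtain ⟨Z₀, hZ₀⟩ := hne
      exact prob_out M Z₀ x fun Z hZ => (h _ _).2 (hZ.trans ((h _ _).1 hZ₀))
    · left
      have h1 : {Z : Oracle | x ∈ B Z} = ∅ := by
        ext Z
        simp only [Set.mem_ofPred_eq, Set.mem_empty_iff_false, iff_false]
        exact fun h => hne ⟨Z, h⟩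
      unfold meas
      rw [h1]
      simp [prob]
  · by_cases hne : ∃ Z₀ : Oracle, x ∉ B Z₀
    · right
      obtain ⟨Z₀, hZ₀⟩ := hne
      refine prob_out M Z₀ x fun Z hZ => ?_
      show x ∈ (B Z)ᶜ
      intro hx
      exact hZ₀ ((h _ _).2 (hZ.symm.trans ((h _ _).1 hx)))
    · left
      have h1 : {Z : Oracle | x ∈ (fun Z => (B Z)ᶜ) Z} = ∅ := by
        ext Z
        simp only [Set.mem_ofPred_eq, Set.mem_empty_iff_false, iff_false]
        exact fun h => hne ⟨Z, h⟩
      unfold meas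
      rw [h1]
      simp [prob]

/-- the family: some string of length at most `|x|` is in the oracle -/
def B₀ : Fam := fun Z => {x | ∃ w : List Bool, w.length ≤ x.length ∧ Z w = true}

/-- the verifier -/
def D₀ (y : List Bool) : List Bool :=
  if (unpair y).2 = [] then false :: (unpair (unpair y).1).2 else true :: (unpair y).2

theorem poly_D₀ : Poly D₀ :=
  Poly.ite (Poly.decide_eq (Poly.snd poly_unpair) (NPC.Poly.const ([] : List Bool)))
    (Poly.cons (NPC.Poly.const false)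
      (Poly.snd (poly_unpair.comp (Poly.fst poly_unpair))))
    (Poly.cons (NPC.Poly.const true) (Poly.snd poly_unpair))

noncomputable def M₀ : Alg := ⟨D₀, polyTime_of_poly_list poly_D₀, 2⟩

theorem out_M₀ (Z : Oracle) (x w : List Bool) :
    M₀.out Z (pairBits x w) = some [Z w] := by
  have hp : M₀.p.eval (pairBits x w).length = 2 := by simp [M₀]
  unfold Alg.out
  rw [hp, A2.run_succ]
  have h1 : M₀.D (pairBits (pairBits x w) []) = false :: w := by
    show D₀ _ = _
    unfold D₀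
    simp [unpair_pairBits]
  rw [h1, if_pos (show (false :: w).head? = some false from rfl), A2.run_succ]
  have h2 : M₀.D (pairBits (pairBits x w) ([] ++ [Z (false :: w).tail])) =
      true :: [Z w] := by
    show D₀ _ = _
    unfold D₀
    simp [unpair_pairBits]
  rw [h2, if_neg (by simp)]
  rfl

theorem isRelNP_B₀ : IsRelNP B₀ := by
  refine ⟨M₀, Polynomial.X, fun Z x => ?_⟩
  simp only [out_M₀, Polynomial.eval_X, Option.some.injEq, List.cons.injEq, and_true]
  rfl

theorem meas_B₀_compl (x : List Bool) :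
    meas (fun Z => (B₀ Z)ᶜ) x = (1 / 2 : ℝ) ^ (strs x.length).length := by
  rw [← prob_agree (strs x.length) (nodup_strs _) (fun _ => false)]
  unfold meas
  congr 1
  ext Z
  show (¬ ∃ w : List Bool, w.length ≤ x.length ∧ Z w = true) ↔ ∀ u ∈ strs x.length, Z u = false
  constructor
  · intro h u hu
    by_contra hne
    exact h ⟨u, mem_strs.1 hu, by simpa using hne⟩
  · rintro h ⟨w, hw, hw'⟩
    have := h w (mem_strs.2 hw)
    rw [hw'] at this
    simp at this

theorem le_length_strs (n : ℕ) : 2 ^ n ≤ (strs n).length := by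
  rw [← length_strsEq n]
  exact (List.subperm_of_subset (nodup_strsEq n) fun x hx =>
    mem_strs.2 (mem_strsEq.1 hx).le).length_le

/-- no gap -/
theorem no_gap (q : Polynomial ℕ) : ∃ x : List Bool,
    0 < meas (fun Z => (B₀ Z)ᶜ) x ∧
      meas (fun Z => (B₀ Z)ᶜ) x < (1 / 2 : ℝ) ^ (q.eval x.length) := by
  obtain ⟨N, hN⟩ := Pool.Agent.J6H54.RO.poly_le_two_pow (q + 1)
  refine ⟨List.replicate N true, ?_⟩
  rw [meas_B₀_compl]
  have h1 := hN N le_rfl
  have h2 := le_length_strs N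
  rw [List.length_replicate]
  refine ⟨by positivity, pow_lt_pow_right_of_lt_one₀ (by norm_num) (by norm_num) ?_⟩
  simp only [Polynomial.eval_add, Polynomial.eval_one] at h1
  omega

/-- the measures for `P` are `1` or not very close to `1` -/
theorem gap_P' {B : Fam} (hB : IsRelP B) : ∃ q : Polynomial ℕ, ∀ x : List Bool,
    meas B x = 1 ∨ meas B x ≤ 1 - (1 / 2 : ℝ) ^ (q.eval x.length) := by
  obtain ⟨M, h⟩ := hB
  refine ⟨M.p, fun x => ?_⟩
  by_cases hne : ∃ Z₀ : Oracle, x ∉ B Z₀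
  · right
    obtain ⟨Z₀, hZ₀⟩ := hne
    obtain ⟨K, hK, hK'⟩ := exists_bits M Z₀ x (M.p.eval x.length) []
    have h1 : {Z : Oracle | x ∈ B Z} ⊆ {Z | ∀ u ∈ K.toList, Z u = Z₀ u}ᶜ := by
      intro Z hZ hZ'
      refine hZ₀ ((h _ _).2 ?_)
      have h2 : M.out Z x = M.out Z₀ x :=
        hK' Z fun u hu => hZ' u (Finset.mem_toList.2 hu)
      rw [← h2]
      exact (h _ _).1 hZ
    have h2 := prob_mono h1
    rw [LM.prob_compl_agree K.toList K.nodup_toList, Finset.length_toList] at h2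
    have h3 : (1 / 2 : ℝ) ^ (M.p.eval x.length) ≤ (1 / 2 : ℝ) ^ K.card :=
      pow_le_pow_of_le_one (by norm_num) (by norm_num) hK
    show prob {Z : Oracle | x ∈ B Z} ≤ _
    linarith
  · left
    have h1 : {Z : Oracle | x ∈ B Z} = Set.univ := by
      ext Z
      simp only [Set.mem_ofPred_eq, Set.mem_univ, iff_true]
      by_contra h2
      exact hne ⟨Z, h2⟩
    unfold meas
    rw [h1]
    exact LM.randomOracle_univ

theorem meas_B₀ (x : List Bool) :
    meas B₀ x = 1 - (1 / 2 : ℝ) ^ (strs x.length).length := by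
  rw [← LM.prob_compl_agree (strs x.length) (nodup_strs _) (fun _ => false)]
  unfold meas
  congr 1
  ext Z
  show (∃ w : List Bool, w.length ≤ x.length ∧ Z w = true) ↔ ¬ ∀ u ∈ strs x.length, Z u = false
  constructor
  · rintro ⟨w, hw, hw'⟩ h
    have := h w (mem_strs.2 hw)
    rw [hw'] at this
    simp at this
  · intro h
    by_contra h1
    refine h fun u hu => ?_
    by_contra hne
    exact h1 ⟨u, mem_strs.1 hu, by simpa using hne⟩

theorem meas_B₀_eq (x : List Bool) :
    meas B₀ x = 1 - meas (fun Z => (B₀ Z)ᶜ) x := by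
  rw [meas_B₀, meas_B₀_compl]

/-- not in `LP` -/
theorem sep_P {B : Fam} (hB : IsRelP B) : Lm B₀ ≠ Lm B := by
  intro h
  obtain ⟨q, hq⟩ := gap_P' hB
  obtain ⟨x, h1, h2⟩ := no_gap q
  have h3 := meas_eq_of_Lm h x
  rw [meas_B₀_eq] at h3
  rcases hq x with h4 | h4 <;> linarith

/-- not in `LNP` -/
theorem sep_NP {B : Fam} (hB : IsRelNP B) : Lm (fun Z => (B₀ Z)ᶜ) ≠ Lm B := by
  intro h
  obtain ⟨q, hq⟩ := gap_NP hB
  obtain ⟨x, h1, h2⟩ := no_gap q
  have h3 := meas_eq_of_Lm h x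
  rcases hq x with h4 | h4 <;> linarith

/-- not in `LP` -/
theorem sep_P' {B : Fam} (hB : IsRelP B) : Lm (fun Z => (B₀ Z)ᶜ) ≠ Lm B := by
  intro h
  obtain ⟨q, hq⟩ := gap_P hB
  obtain ⟨x, h1, h2⟩ := no_gap q
  have h3 := meas_eq_of_Lm h x
  rcases (hq x).1 with h4 | h4 <;> linarith

/-- the measures for `coNP` are `1` or not very close to `1` -/
theorem gap_coNP {B : Fam} (hB : IsRelCoNP B) : ∃ q : Polynomial ℕ,
    ∀ x : List Bool, meas B x = 1 ∨ meas B x ≤ 1 - (1 / 2 : ℝ) ^ (q.eval x.length) := by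
  obtain ⟨M, p, h⟩ := hB
  refine ⟨M.p.comp (2 * Polynomial.X + p + 1), fun x => ?_⟩
  by_cases hne : ∃ Z₀ : Oracle, x ∈ (B Z₀)ᶜ
  · right
    obtain ⟨Z₀, hZ₀⟩ := hne
    obtain ⟨w, hw, hout⟩ := (h _ _).1 hZ₀
    obtain ⟨K, hK, hK'⟩ := exists_bits M Z₀ (pairBits x w) (M.p.eval (pairBits x w).length) []
    have h1 : {Z : Oracle | x ∈ B Z} ⊆ {Z | ∀ u ∈ K.toList, Z u = Z₀ u}ᶜ := by
      intro Z hZ hZ'
      have h2 : M.out Z (pairBits x w) = M.out Z₀ (pairBits x w) :=
        hK' Z fun u hu => hZ' u (Finset.mem_toList.2 hu)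
      have h3 : x ∈ (B Z)ᶜ := (h _ _).2 ⟨w, hw, h2.trans hout⟩
      exact h3 hZ
    have h2 := prob_mono h1
    rw [LM.prob_compl_agree K.toList K.nodup_toList, Finset.length_toList] at h2
    have h4 : K.card ≤ (M.p.comp (2 * Polynomial.X + p + 1)).eval x.length := by
      refine hK.trans ?_
      rw [Polynomial.eval_comp]
      apply eval_mono
      rw [A2.length_pairBits]
      simp only [Polynomial.eval_add, Polynomial.eval_mul, Polynomial.eval_X,
        Polynomial.eval_one, Polynomial.eval_ofNat]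
      omega
    have h3 : (1 / 2 : ℝ) ^ ((M.p.comp (2 * Polynomial.X + p + 1)).eval x.length) ≤
        (1 / 2 : ℝ) ^ K.card :=
      pow_le_pow_of_le_one (by norm_num) (by norm_num) h4
    show prob {Z : Oracle | x ∈ B Z} ≤ _
    linarith
  · left
    have h1 : {Z : Oracle | x ∈ B Z} = Set.univ := by
      ext Z
      simp only [Set.mem_ofPred_eq, Set.mem_univ, iff_true]
      by_contra h2
      exact hne ⟨Z, h2⟩
    unfold meas
    rw [h1]
    exact LM.randomOracle_univ

/-- not in `LΠ₁` -/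
theorem sep_coNP {B : Fam} (hB : IsRelCoNP B) : Lm B₀ ≠ Lm B := by
  intro h
  obtain ⟨q, hq⟩ := gap_coNP hB
  obtain ⟨x, h1, h2⟩ := no_gap q
  have h3 := meas_eq_of_Lm h x
  rw [meas_B₀_eq] at h3
  rcases hq x with h4 | h4 <;> linarith

theorem isRelCoNP_compl : IsRelCoNP fun Z => (B₀ Z)ᶜ := by
  unfold IsRelCoNP
  simp only [compl_compl]
  exact isRelNP_B₀

end Pool.Agent.J6H17.LM0
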